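import Pool.Agent.Helper93.FZ.St

/-!
# Project FZ (MP_953b28_co), module INF: the inflation of a protoplex is a protoplex
-/

set_option autoImplicit false

namespace Pool.Agent.Helper75.FZ

open Finset
open Pool.Agent.Helper93.FZ
open Pool.Agent.Helper92.Proto (IsProtoplex IsLatin Completable)

private theorem inflate_eq {n D : ℕ} (P : Fin n → Fin n → Option (Fin n))
    (L : Fin D → Fin D → Fin D) (x y z : Fin (n * D)) :
    inflate P L x y = some z ↔
      P (finProdFinEquiv.symm x).1 (finProdFinEquiv.symm y).1 = some (finProdFinEquiv.symm z).1 ∧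
      L (finProdFinEquiv.symm x).2 (finProdFinEquiv.symm y).2 = (finProdFinEquiv.symm z).2 := by
  unfold inflate
  rw [Option.map_eq_some_iff]
  constructor
  · rintro ⟨s, hs, hz⟩
    rw [← hz, Equiv.symm_apply_apply]
    exact ⟨hs, rfl⟩
  · rintro ⟨h1, h2⟩
    refine ⟨(finProdFinEquiv.symm z).1, h1, ?_⟩
    rw [h2]
    exact finProdFinEquiv.apply_symm_apply z

private theorem inflate_ne {n D : ℕ} (P : Fin n → Fin n → Option (Fin n))
    (L : Fin D → Fin D → Fin D) (x y : Fin (n * D)) :
    inflate P L x y ≠ none ↔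
      P (finProdFinEquiv.symm x).1 (finProdFinEquiv.symm y).1 ≠ none := by
  unfold inflate
  rw [Ne, Option.map_eq_none_iff]

private theorem card_sym {D : ℕ} (L : Fin D → Fin D → Fin D) (hL : IsLatin L) (z : Fin D) :
    (univ.filter fun p : Fin D × Fin D => L p.1 p.2 = z).card = D := by
  have h : (univ.filter fun p : Fin D × Fin D => L p.1 p.2 = z).card =
      (univ : Finset (Fin D)).card := by
    refine Finset.card_bij (fun p _ => p.1) (fun _ _ => mem_univ _) ?_ ?_
    · rintro ⟨i, j⟩ h1 ⟨i', j'⟩ h2 h3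
      rw [mem_filter] at h1 h2
      obtain rfl : i = i' := h3
      have h4 : L i j = L i j' := h1.2.trans h2.2.symm
      rw [(hL.1 i).1 h4]
    · intro i _
      obtain ⟨j, hj⟩ := (hL.1 i).2 z
      exact ⟨(i, j), by rw [mem_filter]; exact ⟨mem_univ _, hj⟩, rfl⟩
  rw [h, Finset.card_univ, Fintype.card_fin]

/-- **INF** -/
theorem hINF : StINF := by
  intro n k D P L hP hL
  have ext : ∀ x y : Fin (n * D), (finProdFinEquiv.symm x : Fin n × Fin D).1 =
      (finProdFinEquiv.symm y).1 → (finProdFinEquiv.symm x : Fin n × Fin D).2 =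
      (finProdFinEquiv.symm y).2 → x = y := fun x y h1 h2 =>
    finProdFinEquiv.symm.injective (Prod.ext h1 h2)
  refine ⟨?_, ?_, ?_, ?_, ?_⟩
  · intro r c c' s h1 h2
    rw [inflate_eq] at h1 h2
    exact ext _ _ (hP.row_inj _ _ _ _ h1.1 h2.1) ((hL.1 _).1 (h1.2.trans h2.2.symm))
  · intro r r' c s h1 h2
    rw [inflate_eq] at h1 h2
    exact ext _ _ (hP.col_inj _ _ _ _ h1.1 h2.1) ((hL.2 _).1 (h1.2.trans h2.2.symm))
  · intro z
    let E : Fin (n * D) × Fin (n * D) ≃ (Fin n × Fin n) × (Fin D × Fin D) :=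
      (Equiv.prodCongr finProdFinEquiv.symm finProdFinEquiv.symm).trans
        (Equiv.prodProdProdComm _ _ _ _)
    have h : (univ.filter fun x : Fin (n * D) × Fin (n * D) =>
        inflate P L x.1 x.2 = some z).card =
        ((univ.filter fun p : Fin n × Fin n => P p.1 p.2 = some (finProdFinEquiv.symm z).1) ×ˢ
          (univ.filter fun p : Fin D × Fin D => L p.1 p.2 = (finProdFinEquiv.symm z).2)).card := by
      refine Finset.card_equiv E fun p => ?_
      rw [mem_filter, mem_product, mem_filter, mem_filter, inflate_eq]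
      constructor
      · rintro ⟨-, h1, h2⟩
        exact ⟨⟨mem_univ _, h1⟩, ⟨mem_univ _, h2⟩⟩
      · rintro ⟨⟨-, h1⟩, ⟨-, h2⟩⟩
        exact ⟨mem_univ _, h1, h2⟩
    rw [h, card_product, hP.symbol, card_sym L hL]
  · intro r
    have h : (univ.filter fun c => inflate P L r c ≠ none).card =
        ((univ.filter fun c => P (finProdFinEquiv.symm r).1 c ≠ none) ×ˢ
          (univ : Finset (Fin D))).card := by
      refine Finset.card_equiv finProdFinEquiv.symm fun c => ?_
      rw [mem_filter, mem_product, mem_filter, inflate_ne]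
      exact ⟨fun h => ⟨⟨mem_univ _, h.2⟩, mem_univ _⟩, fun h => ⟨mem_univ _, h.1.2⟩⟩
    rw [h, card_product, hP.row, Finset.card_univ, Fintype.card_fin]
  · intro c
    have h : (univ.filter fun r => inflate P L r c ≠ none).card =
        ((univ.filter fun r => P r (finProdFinEquiv.symm c).1 ≠ none) ×ˢ
          (univ : Finset (Fin D))).card := by
      refine Finset.card_equiv finProdFinEquiv.symm fun r => ?_
      rw [mem_filter, mem_product, mem_filter, inflate_ne]
      exact ⟨fun h => ⟨⟨mem_univ _, h.2⟩, mem_univ _⟩, fun h => ⟨mem_univ _, h.1.2⟩⟩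
    rw [h, card_product, hP.col, Finset.card_univ, Fintype.card_fin]

end Pool.Agent.Helper75.FZ
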